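import Mathlib

/-!
# The norm of a finite algebra as a product over its points
-/

set_option autoImplicit false

namespace Pool.Agent.Helper68.ZN

universe u v w x

section

variable {K : Type u} {Q : Type v} {Ω : Type w} [Field K] [CommRing Q] [Algebra K Q] [Field Ω]
  [Algebra K Ω]

/-- The determinant of the multiplication by `a` on a module. -/
noncomputable def dt (K : Type u) {Q : Type v} [Field K] [CommRing Q] [Algebra K Q] (V : Type x)
    [AddCommGroup V] [Module K V] [Module Q V] [IsScalarTower K Q V] (a : Q) : K :=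
  LinearMap.det (Algebra.lsmul K K V a : V →ₗ[K] V)

theorem dt_equiv {V V' : Type x} [AddCommGroup V] [Module K V] [Module Q V] [IsScalarTower K Q V]
    [AddCommGroup V'] [Module K V'] [Module Q V'] [IsScalarTower K Q V'] (e : V ≃ₗ[Q] V')
    (a : Q) : dt K V a = dt K V' a := by
  unfold dt
  rw [← LinearMap.det_conj (Algebra.lsmul K K V a : V →ₗ[K] V) (e.restrictScalars K)]
  congr 1
  ext y
  simp

theorem dt_self (a : Q) : dt K Q a = Algebra.norm K a := by
  rw [Algebra.norm_apply]
  rfl

theorem dt_quot (m : Ideal Q) (a : Q) :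
    dt K (Q ⧸ m) a = Algebra.norm K (Ideal.Quotient.mk m a) := by
  rw [Algebra.norm_apply]
  rfl

theorem dt_split {V : Type x} [AddCommGroup V] [Module K V] [Module Q V] [IsScalarTower K Q V]
    [FiniteDimensional K V] (W : Submodule Q V) (a : Q) :
    dt K V a = dt K W a * dt K (V ⧸ W) a := by
  have he : W.restrictScalars K ≤ (W.restrictScalars K).comap
      (Algebra.lsmul K K V a : V →ₗ[K] V) := fun y hy => W.smul_mem a hy
  have h := LinearMap.det_eq_det_mul_det (W.restrictScalars K)
    (Algebra.lsmul K K V a : V →ₗ[K] V) he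
  unfold dt
  rw [h]
  congr 1

variable [FiniteDimensional K Q] [CharZero K] [IsAlgClosed Ω]

open scoped Classical in
theorem dt_simple (m : Ideal Q) [hm : m.IsMaximal] (a : Q) :
    algebraMap K Ω (dt K (Q ⧸ m) a) =
      ∏ χ : Q →ₐ[K] Ω, χ a ^ (if RingHom.ker χ = m then 1 else 0) := by
  rw [dt_quot]
  let _ : Field (Q ⧸ m) := Ideal.Quotient.field m
  rw [Algebra.norm_eq_prod_embeddings K Ω]
  simp only [pow_ite, pow_one, pow_zero]
  rw [← Finset.prod_filter]
  refine Finset.prod_bij' (fun σ _ => σ.comp (Ideal.Quotient.mkₐ K m))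
    (fun χ hχ => Ideal.Quotient.liftₐ m χ (fun b hb => ?_)) ?_ ?_ ?_ ?_ ?_
  · rw [Finset.mem_filter] at hχ
    rw [← hχ.2] at hb
    exact hb
  · intro σ _
    rw [Finset.mem_filter]
    refine ⟨Finset.mem_univ _, ?_⟩
    ext b
    rw [RingHom.mem_ker]
    show σ (Ideal.Quotient.mk m b) = 0 ↔ b ∈ m
    rw [map_eq_zero_iff σ σ.injective, Ideal.Quotient.eq_zero_iff_mem]
  · intro χ _
    exact Finset.mem_univ _
  · intro σ _
    ext b
    obtain ⟨b, rfl⟩ := Ideal.Quotient.mk_surjective b
    rfl
  · intro χ _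
    ext b
    rfl
  · intro σ _
    rfl

open scoped Classical in
theorem dt_module : ∀ (n : ℕ) (V : Type x) [AddCommGroup V] [Module K V] [Module Q V]
    [IsScalarTower K Q V] [FiniteDimensional K V], Module.finrank K V = n →
    ∃ N : Ideal Q → ℕ, ∀ a : Q,
      algebraMap K Ω (dt K V a) = ∏ χ : Q →ₐ[K] Ω, χ a ^ N (RingHom.ker χ) := by
  intro n
  induction n using Nat.strong_induction_on with
  | _ n ih =>
    intro V _ _ _ _ _ hn
    rcases subsingleton_or_nontrivial V with hV | hV
    · refine ⟨fun _ => 0, fun a => ?_⟩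
      simp only [pow_zero, Finset.prod_const_one]
      unfold dt
      rw [LinearMap.det_eq_one_of_subsingleton, map_one]
    have hQ : Module.Finite Q V := Module.Finite.of_restrictScalars_finite K Q V
    obtain ⟨W, hW, -⟩ := (eq_top_or_exists_le_coatom (⊥ : Submodule Q V)).resolve_left bot_ne_top
    have hs : IsSimpleModule Q (V ⧸ W) := isSimpleModule_iff_isCoatom.mpr hW
    obtain ⟨m, hm, ⟨e⟩⟩ := isSimpleModule_iff_quot_maximal.mp hs
    have hlt : Module.finrank K W < n := by
      rw [← hn]
      exact Submodule.finrank_lt (s := W.restrictScalars K) (by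
        intro h
        apply hW.1
        rw [Submodule.eq_top_iff']
        intro y
        have : y ∈ W.restrictScalars K := by
          rw [h]
          trivial
        exact this)
    have hf : FiniteDimensional K W :=
      inferInstanceAs (FiniteDimensional K (W.restrictScalars K))
    obtain ⟨N, hN⟩ := ih _ hlt W rfl
    refine ⟨fun J => N J + if J = m then 1 else 0, fun a => ?_⟩
    rw [dt_split W a, map_mul, hN a]
    have h1 : dt K (V ⧸ W) a = dt K (Q ⧸ m) a := by
      unfold dt
      rw [← LinearMap.det_conj (Algebra.lsmul K K (V ⧸ W) a : (V ⧸ W) →ₗ[K] (V ⧸ W))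
        (e.restrictScalars K)]
      congr 1
      ext y
      simp
    rw [h1, dt_simple m a, ← Finset.prod_mul_distrib]
    refine Finset.prod_congr rfl fun χ _ => ?_
    rw [pow_add]

omit [CharZero K] [IsAlgClosed Ω] in
theorem ker_maximal (χ : Q →ₐ[K] Ω) : (RingHom.ker χ).IsMaximal := by
  have h1 : (RingHom.ker χ).IsPrime := RingHom.ker_isPrime _
  have h2 : IsArtinianRing Q := IsArtinianRing.of_finite K Q
  exact IsArtinianRing.isMaximal_of_isPrime (RingHom.ker χ)

open scoped Classical in
/-- The norm is a product over all points, with positive exponents. -/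
theorem norm_eq_prod (K : Type u) (Q : Type v) (Ω : Type w) [Field K] [CommRing Q] [Algebra K Q]
    [Field Ω] [Algebra K Ω] [FiniteDimensional K Q] [CharZero K] [IsAlgClosed Ω] :
    ∃ n : (Q →ₐ[K] Ω) → ℕ, (∀ χ, 0 < n χ) ∧
      ∀ a : Q, algebraMap K Ω (Algebra.norm K a) = ∏ χ : Q →ₐ[K] Ω, χ a ^ n χ := by
  obtain ⟨N, hN⟩ := dt_module (K := K) (Q := Q) (Ω := Ω) _ Q rfl
  refine ⟨fun χ => N (RingHom.ker χ), fun χ₀ => ?_, fun a => ?_⟩
  · by_contra h0
    rw [not_lt, Nat.le_zero] at h0
    set m := RingHom.ker χ₀ with hm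
    have hmax : m.IsMaximal := ker_maximal χ₀
    set s : Finset (Q →ₐ[K] Ω) := Finset.univ.filter fun χ => RingHom.ker χ ≠ m with hs
    obtain ⟨a, ha, ha'⟩ : ∃ a ∈ m, ∀ χ ∈ s, a ∉ RingHom.ker χ := by
      by_contra hcon
      push Not at hcon
      have hsub : (m : Set Q) ⊆ ⋃ χ ∈ (s : Set (Q →ₐ[K] Ω)), (RingHom.ker χ : Set Q) := by
        intro b hb
        obtain ⟨χ, hχ, hb'⟩ := hcon b hb
        simp only [Set.mem_iUnion]
        exact ⟨χ, hχ, hb'⟩
      obtain ⟨χ, hχ, hle⟩ := (Ideal.subset_union_prime χ₀ χ₀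
        (fun χ _ _ _ => (RingHom.ker_isPrime (χ : Q →+* Ω)))).mp hsub
      rw [hs, Finset.mem_filter] at hχ
      exact hχ.2 (hmax.eq_of_le (ker_maximal χ).ne_top hle).symm
    have hz : Algebra.norm K a = 0 := by
      by_contra hne
      have hu : IsUnit (Algebra.norm K a) := isUnit_iff_ne_zero.mpr hne
      rw [Algebra.norm_apply] at hu
      have hu' : IsUnit (Algebra.lmul K Q a) := (LinearMap.isUnit_iff_isUnit_det _).mpr hu
      obtain ⟨b, hb⟩ : ∃ b, a * b = 1 := by
        have hsurj := ((Module.End.isUnit_iff _).mp hu').2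
        obtain ⟨b, hb⟩ := hsurj 1
        exact ⟨b, hb⟩
      exact hmax.ne_top ((Ideal.eq_top_iff_one _).mpr (hb ▸ m.mul_mem_right b ha))
    have h1 := hN a
    rw [dt_self, hz, map_zero] at h1
    obtain ⟨χ, -, hχ⟩ := Finset.prod_eq_zero_iff.mp h1.symm
    have hχ0 : χ a = 0 := eq_zero_of_pow_eq_zero hχ
    have hne : N (RingHom.ker χ) ≠ 0 := by
      intro h
      rw [h, pow_zero] at hχ
      exact one_ne_zero hχ
    by_cases hk : RingHom.ker χ = m
    · rw [hk] at hne
      exact hne h0
    · exact ha' χ (Finset.mem_filter.mpr ⟨Finset.mem_univ _, hk⟩) hχ0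
  · rw [← hN a, dt_self]

open scoped Classical in
/-- The same in a field which contains all the values. -/
theorem norm_eq_prod_split (K : Type u) (Q : Type v) (M : Type w) [Field K] [CommRing Q]
    [Algebra K Q] [Field M] [Algebra K M] [FiniteDimensional K Q] [CharZero K]
    (hsp : ∀ (χ : Q →ₐ[K] AlgebraicClosure M) (a : Q), ∃ b : M, algebraMap M _ b = χ a) :
    ∃ n : (Q →ₐ[K] M) → ℕ, (∀ χ, 0 < n χ) ∧
      ∀ a : Q, algebraMap K M (Algebra.norm K a) = ∏ χ : Q →ₐ[K] M, χ a ^ n χ := by
  obtain ⟨n, hn, h⟩ := norm_eq_prod K Q (AlgebraicClosure M)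
  set j : M →ₐ[K] AlgebraicClosure M := IsScalarTower.toAlgHom K M (AlgebraicClosure M) with hj
  have hbij : Function.Bijective fun χ : Q →ₐ[K] M => j.comp χ := by
    constructor
    · intro χ χ' hχ
      ext a
      have := congrArg (fun f : Q →ₐ[K] AlgebraicClosure M => f a) hχ
      exact j.injective this
    · intro χ
      choose b hb using hsp χ
      have hb' : ∀ a, j (b a) = χ a := hb
      have hi : ∀ y z : M, j y = j z → y = z := fun y z hyz => j.injective hyz
      refine ⟨{ toFun := b
                map_one' := hi _ _ (by rw [hb', map_one, map_one])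
                map_mul' := fun a c => hi _ _ (by rw [hb', map_mul, map_mul, hb', hb'])
                map_zero' := hi _ _ (by rw [hb', map_zero, map_zero])
                map_add' := fun a c => hi _ _ (by rw [hb', map_add, map_add, hb', hb'])
                commutes' := fun r => hi _ _ (by rw [hb', AlgHom.commutes, AlgHom.commutes]) },
              ?_⟩
      ext a
      exact hb' a
  refine ⟨fun χ => n (j.comp χ), fun χ => hn _, fun a => ?_⟩
  apply (algebraMap M (AlgebraicClosure M)).injective
  rw [← IsScalarTower.algebraMap_apply K M (AlgebraicClosure M), h a, map_prod]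
  exact (Fintype.prod_bijective _ hbij _ _ fun χ => by
    rw [map_pow]
    rfl).symm

end

end Pool.Agent.Helper68.ZN
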